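import Pool.Agent.Lib.MP_b2e5b9_co.Main

open HyperplaneTransversals

/-- In dimension `d = 4` the `O(n ^ (d - 1))` bound fails without strict convexity: for every
`n ≥ 4` there is a `2`-separated family of `n` nonempty compact convex sets in `ℝ⁴` whose space of
hyperplane transversals has infinitely many topological faces. This holds both if hyperplanes
containing a member count as supporting it (`proper := False`) and if they do not
(`proper := True`). -/
theorem Pool.Agent.Results.MP_b2e5b9_co.InfinitelyManyFaces.result (n : ℕ) (hn : 4 ≤ n) :
    ∃ A : Fin n → Set (E 4), (∀ i, (A i).Nonempty ∧ IsCompact (A i) ∧ Convex ℝ (A i)) ∧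
      Separated 2 A ∧ ∀ proper : Prop, (faces proper A).Infinite :=
  ⟨fam n, fam_good n, fam_separated n, fun proper => faces_infinite hn proper⟩
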